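import Mathlib

/-!
For every odd prime `p`, the largest `S`-free subset of `𝔽_p³` has exactly `p ^ 2` elements: the
plane `{(x, t, t)}` is `S`-free, and `(x, y, z) ↦ (x, y + z)` is injective on an `S`-free set.
In particular no bound of the form `p ^ (2 - δ)` holds.
-/

namespace Pool.Agent.Results.MP_9d9710_co.PlaneExtremal

/-- `P = {1, 2, …, (p - 1) / 2}` as a subset of `𝔽_p`. -/
def P (p : ℕ) : Set (ZMod p) := {y | 1 ≤ y.val ∧ y.val ≤ (p - 1) / 2}

/-- `S₀` is the set of vectors `(0, y, z)` with `y ∈ P` and `-z ∈ P`. -/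
def S₀ (p : ℕ) : Set (Fin 3 → ZMod p) := {v | v 0 = 0 ∧ v 1 ∈ P p ∧ -(v 2) ∈ P p}

/-- `S` is the union of the images of `S₀` under the permutations of the three coordinates. -/
def S (p : ℕ) : Set (Fin 3 → ZMod p) := {v | ∃ σ : Equiv.Perm (Fin 3), v ∘ σ ∈ S₀ p}

/-- `A` is `S`-free: no difference of two elements of `A` lies in `S`. -/
def SFree (p : ℕ) (A : Finset (Fin 3 → ZMod p)) : Prop := ∀ a ∈ A, ∀ b ∈ A, a - b ∉ S p

lemma neg_notMem_P {p : ℕ} [Fact p.Prime] {y : ZMod p} (h : y ∈ P p) (h' : -y ∈ P p) :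
    False := by
  have hp : 0 < p := (Fact.out : p.Prime).pos
  have : NeZero p := ⟨hp.ne'⟩
  unfold P at h h'
  simp only [Set.mem_ofPred_eq] at h h'
  have hy : y ≠ 0 := by
    rintro rfl
    simp at h
  have : NeZero y := ⟨hy⟩
  rw [ZMod.val_neg_of_ne_zero] at h'
  have := ZMod.val_lt y
  omega

lemma zero_notMem_P {p : ℕ} : (0 : ZMod p) ∉ P p := by
  unfold P
  simp

lemma mem_P_or_neg_mem_P {p : ℕ} [Fact p.Prime] (hp2 : p ≠ 2) {y : ZMod p} (hy : y ≠ 0) :
    y ∈ P p ∨ -y ∈ P p := by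
  have hpp : p.Prime := Fact.out
  have hodd : p % 2 = 1 := hpp.eq_two_or_odd.resolve_left hp2
  have : NeZero p := ⟨hpp.pos.ne'⟩
  have : NeZero y := ⟨hy⟩
  unfold P
  simp only [Set.mem_ofPred_eq]
  rw [ZMod.val_neg_of_ne_zero]
  have h1 := ZMod.val_lt y
  have h2 : 1 ≤ y.val := by
    rw [Nat.one_le_iff_ne_zero]
    exact (ZMod.val_ne_zero y).2 hy
  omega

/-- The plane `{(x, t, t)}`. -/
def plane (p : ℕ) [NeZero p] : Finset (Fin 3 → ZMod p) :=
  (Finset.univ : Finset (ZMod p × ZMod p)).image fun q => ![q.1, q.2, q.2]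

lemma card_plane (p : ℕ) [NeZero p] : (plane p).card = p ^ 2 := by
  unfold plane
  rw [Finset.card_image_of_injective]
  · simp [ZMod.card, sq]
  · rintro ⟨x, t⟩ ⟨x', t'⟩ h
    have h0 := congrFun h 0
    have h1 := congrFun h 1
    simp at h0 h1
    simp [h0, h1]

lemma plane_sfree (p : ℕ) [Fact p.Prime] [NeZero p] : SFree p (plane p) := by
  intro a ha b hb hab
  unfold plane at ha hb
  simp only [Finset.mem_image, Finset.mem_univ, true_and, Prod.exists] at ha hb
  obtain ⟨x, t, rfl⟩ := ha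
  obtain ⟨x', t', rfl⟩ := hb
  obtain ⟨σ, h0, h1, h2⟩ := hab
  -- the difference is `(u, v, v)`
  set d : Fin 3 → ZMod p := ![x, t, t] - ![x', t', t'] with hd
  have h12 : d 1 = d 2 := by simp [hd]
  have hσ0 : d (σ 0) = 0 := h0
  have hσ1 : d (σ 1) ∈ P p := h1
  have hσ2 : -(d (σ 2)) ∈ P p := h2
  have hne01 : σ 0 ≠ σ 1 := fun h => by simpa using σ.injective h
  have hne02 : σ 0 ≠ σ 2 := fun h => by simpa using σ.injective h
  have hne12 : σ 1 ≠ σ 2 := fun h => by simpa using σ.injective h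
  by_cases hz : σ 0 = 0
  · -- then the other two coordinates are equal
    have : d (σ 1) = d (σ 2) := by
      have h1' : σ 1 ≠ 0 := fun h => hne01 (hz.trans h.symm)
      have h2' : σ 2 ≠ 0 := fun h => hne02 (hz.trans h.symm)
      generalize σ 1 = i at *
      generalize σ 2 = j at *
      fin_cases i <;> fin_cases j <;> simp_all
    rw [this] at hσ1
    exact neg_notMem_P hσ1 hσ2
  · -- then both of the last two coordinates vanish
    have hv : d 1 = 0 ∧ d 2 = 0 := by
      generalize σ 0 = i at *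
      fin_cases i
      · exact absurd rfl hz
      · exact ⟨hσ0, h12 ▸ hσ0⟩
      · exact ⟨h12.trans hσ0, hσ0⟩
    have hdz : ∀ i : Fin 3, i ≠ 0 → d i = 0 := by
      intro i hi
      fin_cases i
      · exact absurd rfl hi
      · exact hv.1
      · exact hv.2
    by_cases h1' : σ 1 = 0
    · have h2' : σ 2 ≠ 0 := fun h => hne12 (h1'.trans h.symm)
      rw [hdz _ h2', neg_zero] at hσ2
      exact zero_notMem_P hσ2
    · rw [hdz _ h1'] at hσ1
      exact zero_notMem_P hσ1

lemma card_le (p : ℕ) [Fact p.Prime] (hp2 : p ≠ 2) (A : Finset (Fin 3 → ZMod p))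
    (hA : SFree p A) : A.card ≤ p ^ 2 := by
  have : NeZero p := ⟨(Fact.out : p.Prime).pos.ne'⟩
  have hinj : Set.InjOn (fun a : Fin 3 → ZMod p => (a 0, a 1 + a 2)) A := by
    intro a ha b hb hab
    simp only [Prod.mk.injEq] at hab
    obtain ⟨h0, h12⟩ := hab
    by_contra hne
    have hy : a 1 - b 1 ≠ 0 := by
      intro h
      apply hne
      have h1 : a 1 = b 1 := sub_eq_zero.1 h
      have h2 : a 2 = b 2 := by rw [h1] at h12; exact add_left_cancel h12
      funext i
      fin_cases i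
      · exact h0
      · exact h1
      · exact h2
    have hz : a 2 - b 2 = -(a 1 - b 1) := by linear_combination h12
    rcases mem_P_or_neg_mem_P hp2 hy with h | h
    · apply hA a ha b hb
      refine ⟨1, ?_, ?_, ?_⟩
      · simp [h0]
      · simpa using h
      · simp only [Equiv.Perm.coe_one, Function.comp_id, Pi.sub_apply]
        rw [hz, neg_neg]
        exact h
    · apply hA a ha b hb
      refine ⟨Equiv.swap 1 2, ?_, ?_, ?_⟩
      · have : (Equiv.swap (1 : Fin 3) 2) 0 = 0 := by decide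
        simp [this, h0]
      · have : (Equiv.swap (1 : Fin 3) 2) 1 = 2 := by decide
        simp only [Function.comp_apply, this, Pi.sub_apply]
        rw [hz]
        exact h
      · have : (Equiv.swap (1 : Fin 3) 2) 2 = 1 := by decide
        simp only [Function.comp_apply, this, Pi.sub_apply]
        exact h
  have h := Finset.card_le_card_of_injOn (t := (Finset.univ : Finset (ZMod p × ZMod p)))
    (fun a : Fin 3 → ZMod p => (a 0, a 1 + a 2)) (fun a _ => Finset.mem_univ _) hinj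
  simpa [ZMod.card, sq] using h

/-- For every odd prime `p` the largest size of an `S`-free subset of `𝔽_p³` is `p ^ 2`, which
exceeds `p ^ (2 - δ)` for every `δ > 0`. -/
theorem result (p : ℕ) (hp : p.Prime) (hp2 : p ≠ 2) :
    IsGreatest {n : ℕ | ∃ A : Finset (Fin 3 → ZMod p), SFree p A ∧ A.card = n} (p ^ 2) ∧
      ∀ δ : ℝ, 0 < δ → (p : ℝ) ^ (2 - δ) < ((p ^ 2 : ℕ) : ℝ) := by
  have : Fact p.Prime := ⟨hp⟩
  have : NeZero p := ⟨hp.pos.ne'⟩
  refine ⟨⟨⟨plane p, plane_sfree p, card_plane p⟩, ?_⟩, ?_⟩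
  · rintro n ⟨A, hA, rfl⟩
    exact card_le p hp2 A hA
  · intro δ hδ
    have h1 : (1 : ℝ) < p := by exact_mod_cast hp.one_lt
    have h2 : (p : ℝ) ^ (2 - δ) < (p : ℝ) ^ (2 : ℝ) :=
      Real.rpow_lt_rpow_of_exponent_lt h1 (by linarith)
    rw [Nat.cast_pow]
    exact_mod_cast h2

end Pool.Agent.Results.MP_9d9710_co.PlaneExtremal
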